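import Mathlib

namespace Pool.Agent.Results.MP_dd1479_lc.InfinitelyManyCIP

/-- Formulas of the language of `FL_ew`: variables, the unit constant `e`, the zero constant `f`,
conjunction, disjunction, fusion and implication. -/
inductive Fm : Type
  | var (n : ℕ) : Fm
  | e : Fm
  | f : Fm
  | conj (a b : Fm) : Fm
  | disj (a b : Fm) : Fm
  | fus (a b : Fm) : Fm
  | imp (a b : Fm) : Fm
  deriving DecidableEq

namespace Fm

/-- The set of variables of a formula. -/
def vars : Fm → Set ℕ
  | var n => {n}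
  | e => ∅
  | f => ∅
  | conj a b => a.vars ∪ b.vars
  | disj a b => a.vars ∪ b.vars
  | fus a b => a.vars ∪ b.vars
  | imp a b => a.vars ∪ b.vars

/-- Simultaneous substitution. -/
def subst (s : ℕ → Fm) : Fm → Fm
  | var n => s n
  | e => e
  | f => f
  | conj a b => conj (a.subst s) (b.subst s)
  | disj a b => disj (a.subst s) (b.subst s)
  | fus a b => fus (a.subst s) (b.subst s)
  | imp a b => imp (a.subst s) (b.subst s)

end Fm

/-- Derivability in the sequent calculus for `FL_ew` (full Lambek calculus with exchange and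
weakening, antecedents being finite multisets), with the formulas of `Ax` added as axioms. -/
inductive Der (Ax : Set Fm) : Multiset Fm → Fm → Prop
  | ax {a : Fm} : a ∈ Ax → Der Ax 0 a
  | id (a : Fm) : Der Ax {a} a
  | cut {G D : Multiset Fm} {a b : Fm} : Der Ax G a → Der Ax (a ::ₘ D) b → Der Ax (G + D) b
  | weak {G : Multiset Fm} {a b : Fm} : Der Ax G b → Der Ax (a ::ₘ G) b
  | eLeft {G : Multiset Fm} {b : Fm} : Der Ax G b → Der Ax (Fm.e ::ₘ G) b
  | eRight : Der Ax 0 Fm.e
  | fLeft (b : Fm) : Der Ax {Fm.f} b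
  | fusLeft {G : Multiset Fm} {a b c : Fm} :
      Der Ax (a ::ₘ b ::ₘ G) c → Der Ax (Fm.fus a b ::ₘ G) c
  | fusRight {G D : Multiset Fm} {a b : Fm} :
      Der Ax G a → Der Ax D b → Der Ax (G + D) (Fm.fus a b)
  | impLeft {G D : Multiset Fm} {a b c : Fm} :
      Der Ax G a → Der Ax (b ::ₘ D) c → Der Ax (Fm.imp a b ::ₘ (G + D)) c
  | impRight {G : Multiset Fm} {a b : Fm} : Der Ax (a ::ₘ G) b → Der Ax G (Fm.imp a b)
  | conjLeft₁ {G : Multiset Fm} {a b c : Fm} : Der Ax (a ::ₘ G) c → Der Ax (Fm.conj a b ::ₘ G) c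
  | conjLeft₂ {G : Multiset Fm} {a b c : Fm} : Der Ax (b ::ₘ G) c → Der Ax (Fm.conj a b ::ₘ G) c
  | conjRight {G : Multiset Fm} {a b : Fm} : Der Ax G a → Der Ax G b → Der Ax G (Fm.conj a b)
  | disjLeft {G : Multiset Fm} {a b c : Fm} :
      Der Ax (a ::ₘ G) c → Der Ax (b ::ₘ G) c → Der Ax (Fm.disj a b ::ₘ G) c
  | disjRight₁ {G : Multiset Fm} {a b : Fm} : Der Ax G a → Der Ax G (Fm.disj a b)
  | disjRight₂ {G : Multiset Fm} {a b : Fm} : Der Ax G b → Der Ax G (Fm.disj a b)

/-- The set of theorems of the calculus with additional axioms `Ax`. -/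
def Theorems (Ax : Set Fm) : Set Fm := {a | Der Ax 0 a}

/-- `T` is the set of theorems of an axiomatic extension of `FL_ew`: the axioms added form a set
of formulas closed under substitution. -/
def IsAxiomaticExtension (T : Set Fm) : Prop :=
  ∃ Ax : Set Fm, (∀ a ∈ Ax, ∀ s : ℕ → Fm, a.subst s ∈ Ax) ∧ T = Theorems Ax

/-- Craig interpolation property of a logic given by its set of theorems. -/
def HasCIP (T : Set Fm) : Prop :=
  ∀ a b : Fm, Fm.imp a b ∈ T →
    ∃ c : Fm, Fm.imp a c ∈ T ∧ Fm.imp c b ∈ T ∧ c.vars ⊆ a.vars ∩ b.vars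

/-! ### Algebras -/

/-- `FL_ew`-algebras. -/
class FLew (A : Type*) extends Lattice A, BoundedOrder A, CommMonoid A where
  one_eq_top : (1 : A) = ⊤
  res : A → A → A
  mul_le_iff : ∀ a b c : A, a * b ≤ c ↔ a ≤ res b c

section General

variable {A : Type*} [FLew A]

/-- Evaluation of formulas. -/
def eval (v : ℕ → A) : Fm → A
  | .var n => v n
  | .e => 1
  | .f => ⊥
  | .conj a b => eval v a ⊓ eval v b
  | .disj a b => eval v a ⊔ eval v b
  | .fus a b => eval v a * eval v b
  | .imp a b => FLew.res (eval v a) (eval v b)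

theorem mul_le_mul_right_of {a b : A} (c : A) (h : a ≤ b) : a * c ≤ b * c := by
  rw [FLew.mul_le_iff]
  exact h.trans ((FLew.mul_le_iff _ _ _).1 le_rfl)

theorem mul_le_mul_of {a b c d : A} (h : a ≤ b) (h' : c ≤ d) : a * c ≤ b * d := by
  calc a * c ≤ b * c := mul_le_mul_right_of c h
    _ = c * b := mul_comm _ _
    _ ≤ d * b := mul_le_mul_right_of b h'
    _ = b * d := mul_comm _ _

theorem le_one_of (a : A) : a ≤ 1 := by
  rw [FLew.one_eq_top]; exact le_top

theorem mul_le_right_of (a b : A) : a * b ≤ b := by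
  calc a * b ≤ 1 * b := mul_le_mul_right_of b (le_one_of a)
    _ = b := one_mul b

theorem one_le_res {a b : A} : (1 : A) ≤ FLew.res a b ↔ a ≤ b := by
  rw [← FLew.mul_le_iff, one_mul]

theorem res_eq_one {a b : A} : FLew.res a b = 1 ↔ a ≤ b := by
  rw [← one_le_res]
  exact ⟨fun h => h.ge, fun h => le_antisymm (le_one_of _) h⟩

theorem sup_mul_le {a b c d : A} (h : a * c ≤ d) (h' : b * c ≤ d) : (a ⊔ b) * c ≤ d := by
  rw [FLew.mul_le_iff] at *
  exact sup_le h h'

/-- Soundness of the calculus. -/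
theorem soundness {Ax : Set Fm} (hAx : ∀ a ∈ Ax, ∀ v : ℕ → A, eval v a = 1) {G : Multiset Fm}
    {a : Fm} (h : Der Ax G a) (v : ℕ → A) : (G.map (eval v)).prod ≤ eval v a := by
  induction h with
  | ax h => simp [hAx _ h v]
  | id a => simp
  | @cut G D a b _ _ ih1 ih2 =>
    rw [Multiset.map_add, Multiset.prod_add]
    rw [Multiset.map_cons, Multiset.prod_cons] at ih2
    exact (mul_le_mul_right_of _ ih1).trans ih2
  | @weak G a b _ ih =>
    rw [Multiset.map_cons, Multiset.prod_cons]
    exact (mul_le_right_of _ _).trans ih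
  | @eLeft G b _ ih =>
    rw [Multiset.map_cons, Multiset.prod_cons]
    exact (mul_le_right_of _ _).trans ih
  | eRight => simp [eval]
  | fLeft b => simp [eval]
  | @fusLeft G a b c _ ih =>
    rw [Multiset.map_cons, Multiset.prod_cons]
    rw [Multiset.map_cons, Multiset.prod_cons, Multiset.map_cons, Multiset.prod_cons] at ih
    simpa [eval, mul_assoc] using ih
  | @fusRight G D a b _ _ ih1 ih2 =>
    rw [Multiset.map_add, Multiset.prod_add]
    exact mul_le_mul_of ih1 ih2
  | @impLeft G D a b c _ _ ih1 ih2 =>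
    rw [Multiset.map_cons, Multiset.prod_cons, Multiset.map_add, Multiset.prod_add]
    rw [Multiset.map_cons, Multiset.prod_cons] at ih2
    refine le_trans ?_ ih2
    rw [← mul_assoc]
    refine mul_le_mul_right_of _ ?_
    calc eval v (Fm.imp a b) * (Multiset.map (eval v) G).prod
        ≤ eval v (Fm.imp a b) * eval v a := mul_le_mul_of le_rfl ih1
      _ ≤ eval v b := (FLew.mul_le_iff _ _ _).2 le_rfl
  | @impRight G a b _ ih =>
    rw [Multiset.map_cons, Multiset.prod_cons, mul_comm] at ih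
    exact (FLew.mul_le_iff _ _ _).1 ih
  | @conjLeft₁ G a b c _ ih =>
    rw [Multiset.map_cons, Multiset.prod_cons] at *
    exact (mul_le_mul_right_of _ inf_le_left).trans ih
  | @conjLeft₂ G a b c _ ih =>
    rw [Multiset.map_cons, Multiset.prod_cons] at *
    exact (mul_le_mul_right_of _ inf_le_right).trans ih
  | conjRight _ _ ih1 ih2 => exact le_inf ih1 ih2
  | @disjLeft G a b c _ _ ih1 ih2 =>
    rw [Multiset.map_cons, Multiset.prod_cons] at *
    exact sup_mul_le ih1 ih2
  | disjRight₁ _ ih => exact ih.trans le_sup_left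
  | disjRight₂ _ ih => exact ih.trans le_sup_right

theorem eval_subst (v : ℕ → A) (s : ℕ → Fm) (a : Fm) :
    eval v (a.subst s) = eval (fun n => eval v (s n)) a := by
  induction a with
  | var n => rfl
  | e => rfl
  | f => rfl
  | conj a b iha ihb => simp [Fm.subst, eval, iha, ihb]
  | disj a b iha ihb => simp [Fm.subst, eval, iha, ihb]
  | fus a b iha ihb => simp [Fm.subst, eval, iha, ihb]
  | imp a b iha ihb => simp [Fm.subst, eval, iha, ihb]

theorem eval_congr {v w : ℕ → A} {a : Fm} (h : ∀ n ∈ a.vars, v n = w n) : eval v a = eval w a := by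
  induction a with
  | var n => exact h n rfl
  | e => rfl
  | f => rfl
  | conj a b iha ihb =>
    simp [eval, iha (fun n hn => h n (Or.inl hn)), ihb (fun n hn => h n (Or.inr hn))]
  | disj a b iha ihb =>
    simp [eval, iha (fun n hn => h n (Or.inl hn)), ihb (fun n hn => h n (Or.inr hn))]
  | fus a b iha ihb =>
    simp [eval, iha (fun n hn => h n (Or.inl hn)), ihb (fun n hn => h n (Or.inr hn))]
  | imp a b iha ihb =>
    simp [eval, iha (fun n hn => h n (Or.inl hn)), ihb (fun n hn => h n (Or.inr hn))]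

/-- Endomorphisms. -/
structure IsHom (h : A → A) : Prop where
  one : h 1 = 1
  bot : h ⊥ = ⊥
  inf : ∀ x y, h (x ⊓ y) = h x ⊓ h y
  sup : ∀ x y, h (x ⊔ y) = h x ⊔ h y
  mul : ∀ x y, h (x * y) = h x * h y
  res : ∀ x y, h (FLew.res x y) = FLew.res (h x) (h y)

theorem IsHom.eval {h : A → A} (hh : IsHom h) (v : ℕ → A) (a : Fm) :
    InfinitelyManyCIP.eval (fun n => h (v n)) a = h (InfinitelyManyCIP.eval v a) := by
  induction a with
  | var n => rfl
  | e => simp [InfinitelyManyCIP.eval, hh.one]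
  | f => simp [InfinitelyManyCIP.eval, hh.bot]
  | conj a b iha ihb => simp [InfinitelyManyCIP.eval, hh.inf, iha, ihb]
  | disj a b iha ihb => simp [InfinitelyManyCIP.eval, hh.sup, iha, ihb]
  | fus a b iha ihb => simp [InfinitelyManyCIP.eval, hh.mul, iha, ihb]
  | imp a b iha ihb => simp [InfinitelyManyCIP.eval, hh.res, iha, ihb]

end General

/-- The formulas valid in an algebra. -/
def Valid (A : Type*) [FLew A] : Set Fm := {a | ∀ v : ℕ → A, eval v a = 1}

theorem theorems_valid (A : Type*) [FLew A] : Theorems (Valid A) = Valid A := by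
  ext a
  constructor
  · intro h v
    have := soundness (A := A) (Ax := Valid A) (fun a ha v => ha v) h v
    simp only [Multiset.map_zero, Multiset.prod_zero] at this
    exact le_antisymm (le_one_of _) this
  · intro h
    exact Der.ax h

theorem isAxiomaticExtension_valid (A : Type*) [FLew A] : IsAxiomaticExtension (Valid A) := by
  refine ⟨Valid A, ?_, (theorems_valid A).symm⟩
  intro a ha s v
  rw [eval_subst]
  exact ha _


/-! ### The algebra built from a bounded lattice -/

/-- Universe: a bounded lattice `L` placed as one side of a four-element Boolean skeleton. -/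
inductive Alg (L : Type*) : Type _
  | bot : Alg L
  | lat (x : L) : Alg L
  | u : Alg L
  | d : Alg L
  | top : Alg L

namespace Alg

variable {L : Type*}

def le [LE L] : Alg L → Alg L → Prop
  | .bot, _ => True
  | .lat _, .bot => False
  | .lat x, .lat y => x ≤ y
  | .lat _, .u => False
  | .lat _, .d => True
  | .lat _, .top => True
  | .u, .bot => False
  | .u, .lat _ => False
  | .u, .u => True
  | .u, .d => True
  | .u, .top => True
  | .d, .bot => False
  | .d, .lat _ => False
  | .d, .u => False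
  | .d, .d => True
  | .d, .top => True
  | .top, .bot => False
  | .top, .lat _ => False
  | .top, .u => False
  | .top, .d => False
  | .top, .top => True

def sup [Lattice L] : Alg L → Alg L → Alg L
  | .bot, y => y
  | .lat x, .bot => .lat x
  | .lat x, .lat y => .lat (x ⊔ y)
  | .lat _, .u => .d
  | .lat _, .d => .d
  | .lat _, .top => .top
  | .u, .bot => .u
  | .u, .lat _ => .d
  | .u, .u => .u
  | .u, .d => .d
  | .u, .top => .top
  | .d, .bot => .d
  | .d, .lat _ => .d
  | .d, .u => .d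
  | .d, .d => .d
  | .d, .top => .top
  | .top, _ => .top

def inf [Lattice L] : Alg L → Alg L → Alg L
  | .bot, _ => .bot
  | .lat _, .bot => .bot
  | .lat x, .lat y => .lat (x ⊓ y)
  | .lat _, .u => .bot
  | .lat x, .d => .lat x
  | .lat x, .top => .lat x
  | .u, .bot => .bot
  | .u, .lat _ => .bot
  | .u, .u => .u
  | .u, .d => .u
  | .u, .top => .u
  | .d, .bot => .bot
  | .d, .lat x => .lat x
  | .d, .u => .u
  | .d, .d => .d
  | .d, .top => .d
  | .top, y => y

def mul [LE L] [OrderBot L] : Alg L → Alg L → Alg L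
  | .bot, _ => .bot
  | .lat _, .bot => .bot
  | .lat _, .lat _ => .lat ⊥
  | .lat _, .u => .bot
  | .lat _, .d => .lat ⊥
  | .lat x, .top => .lat x
  | .u, .bot => .bot
  | .u, .lat _ => .bot
  | .u, .u => .u
  | .u, .d => .u
  | .u, .top => .u
  | .d, .bot => .bot
  | .d, .lat _ => .lat ⊥
  | .d, .u => .u
  | .d, .d => .d
  | .d, .top => .d
  | .top, y => y

open Classical in
noncomputable def imp [LE L] [OrderTop L] : Alg L → Alg L → Alg L
  | .bot, _ => .top
  | .lat _, .bot => .u
  | .lat x, .lat y => if x ≤ y then .top else .d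
  | .lat _, .u => .u
  | .lat _, .d => .top
  | .lat _, .top => .top
  | .u, .bot => .lat ⊤
  | .u, .lat _ => .lat ⊤
  | .u, .u => .top
  | .u, .d => .top
  | .u, .top => .top
  | .d, .bot => .bot
  | .d, .lat _ => .lat ⊤
  | .d, .u => .u
  | .d, .d => .top
  | .d, .top => .top
  | .top, y => y

noncomputable instance [Lattice L] [BoundedOrder L] : FLew (Alg L) where
  le := le
  le_refl := by rintro (_ | x | _ | _ | _) <;> simp [le]
  le_trans := by
    rintro (_ | x | _ | _ | _) (_ | y | _ | _ | _) (_ | z | _ | _ | _) <;> simp [le]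
    exact fun h h' => h.trans h'
  le_antisymm := by
    rintro (_ | x | _ | _ | _) (_ | y | _ | _ | _) <;> simp [le]
    exact fun h h' => le_antisymm h h'
  sup := sup
  inf := inf
  le_sup_left := by
    rintro (_ | x | _ | _ | _) (_ | y | _ | _ | _) <;> simp [le, sup]
  le_sup_right := by
    rintro (_ | x | _ | _ | _) (_ | y | _ | _ | _) <;> simp [le, sup]
  sup_le := by
    rintro (_ | x | _ | _ | _) (_ | y | _ | _ | _) (_ | z | _ | _ | _) <;> simp [le, sup]
    exact fun h h' => ⟨h, h'⟩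
  inf_le_left := by
    rintro (_ | x | _ | _ | _) (_ | y | _ | _ | _) <;> simp [le, inf]
  inf_le_right := by
    rintro (_ | x | _ | _ | _) (_ | y | _ | _ | _) <;> simp [le, inf]
  le_inf := by
    rintro (_ | x | _ | _ | _) (_ | y | _ | _ | _) (_ | z | _ | _ | _) <;> simp [le, inf]
    exact fun h h' => ⟨h, h'⟩
  top := .top
  bot := .bot
  le_top := by rintro (_ | x | _ | _ | _) <;> simp [le]
  bot_le := by rintro (_ | x | _ | _ | _) <;> simp [le]
  mul := mul
  one := .top
  mul_assoc := by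
    rintro (_ | x | _ | _ | _) (_ | y | _ | _ | _) (_ | z | _ | _ | _) <;> rfl
  mul_comm := by
    rintro (_ | x | _ | _ | _) (_ | y | _ | _ | _) <;> rfl
  one_mul := by rintro (_ | x | _ | _ | _) <;> rfl
  mul_one := by rintro (_ | x | _ | _ | _) <;> rfl
  one_eq_top := rfl
  res := imp
  mul_le_iff := by
    classical
    rintro (_ | x | _ | _ | _) (_ | y | _ | _ | _) (_ | z | _ | _ | _) <;>
    first
    | (show le _ _ ↔ le _ _; simp [le, imp, HMul.hMul, Mul.mul, mul]; done)
    | (show le _ _ ↔ le _ _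
       by_cases h : y ≤ z <;> simp [le, imp, h, HMul.hMul, Mul.mul, mul])

end Alg


/-! ### Horizontal sums of `k` copies of the rational chain -/

inductive HS (k : ℕ) : Type
  | bot : HS k
  | pt (i : Fin k) (q : ℚ) : HS k
  | top : HS k

namespace HS

variable {k : ℕ}

def le : HS k → HS k → Prop
  | .bot, _ => True
  | .pt _ _, .bot => False
  | .pt i q, .pt j r => i = j ∧ q ≤ r
  | .pt _ _, .top => True
  | .top, .bot => False
  | .top, .pt _ _ => False
  | .top, .top => True

def sup : HS k → HS k → HS k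
  | .bot, y => y
  | .pt i q, .bot => .pt i q
  | .pt i q, .pt j r => if i = j then .pt i (max q r) else .top
  | .pt _ _, .top => .top
  | .top, _ => .top

def inf : HS k → HS k → HS k
  | .bot, _ => .bot
  | .pt _ _, .bot => .bot
  | .pt i q, .pt j r => if i = j then .pt i (min q r) else .bot
  | .pt i q, .top => .pt i q
  | .top, y => y

instance : Lattice (HS k) where
  le := le
  le_refl := by rintro (_ | ⟨i, q⟩ | _) <;> simp [le]
  le_trans := by
    rintro (_ | ⟨i, q⟩ | _) (_ | ⟨j, r⟩ | _) (_ | ⟨l, s⟩ | _) <;> simp [le]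
    rintro rfl h rfl h'
    exact ⟨rfl, h.trans h'⟩
  le_antisymm := by
    rintro (_ | ⟨i, q⟩ | _) (_ | ⟨j, r⟩ | _) <;> simp [le]
    rintro rfl h _ h'
    exact ⟨rfl, le_antisymm h h'⟩
  sup := sup
  inf := inf
  le_sup_left := by
    rintro (_ | ⟨i, q⟩ | _) (_ | ⟨j, r⟩ | _) <;> simp [le, sup]
    by_cases h : i = j <;> simp [h]
  le_sup_right := by
    rintro (_ | ⟨i, q⟩ | _) (_ | ⟨j, r⟩ | _) <;> simp [le, sup]
    by_cases h : i = j <;> simp [h]
  sup_le := by
    rintro (_ | ⟨i, q⟩ | _) (_ | ⟨j, r⟩ | _) (_ | ⟨l, s⟩ | _) <;> simp [le, sup]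
    · rintro rfl h rfl h'
      simp [h, h']
    · by_cases h : i = j <;> simp [h]
  inf_le_left := by
    rintro (_ | ⟨i, q⟩ | _) (_ | ⟨j, r⟩ | _) <;> simp [le, inf]
    by_cases h : i = j <;> simp [h]
  inf_le_right := by
    rintro (_ | ⟨i, q⟩ | _) (_ | ⟨j, r⟩ | _) <;> simp [le, inf]
    by_cases h : i = j <;> simp [h]
  le_inf := by
    rintro (_ | ⟨i, q⟩ | _) (_ | ⟨j, r⟩ | _) (_ | ⟨l, s⟩ | _) <;> simp [le, inf]
    rintro rfl h rfl h'
    simp [h, h']

instance : BoundedOrder (HS k) where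
  top := .top
  bot := .bot
  le_top := by rintro (_ | ⟨i, q⟩ | _) <;> trivial
  bot_le := by rintro (_ | ⟨i, q⟩ | _) <;> trivial

theorem pt_le_pt {i j : Fin k} {q r : ℚ} : (HS.pt i q ≤ HS.pt j r) ↔ i = j ∧ q ≤ r := Iff.rfl

theorem not_top_le_pt {i : Fin k} {q : ℚ} : ¬ ((⊤ : HS k) ≤ HS.pt i q) := fun h => h

theorem not_pt_le_bot {i : Fin k} {q : ℚ} : ¬ (HS.pt i q ≤ (⊥ : HS k)) := fun h => h

theorem not_top_le_bot : ¬ ((⊤ : HS k) ≤ ⊥) := fun h => h

end HS

/-! ### Extending finite order embeddings of `ℚ` -/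

/-- A finite order-consistent relation on `ℚ` extends to a strictly increasing function. -/
theorem exists_strictMono (G : Finset (ℚ × ℚ))
    (hG : ∀ p ∈ G, ∀ p' ∈ G, p.1 ≤ p'.1 ↔ p.2 ≤ p'.2) :
    ∃ F : ℚ → ℚ, StrictMono F ∧ ∀ p ∈ G, F p.1 = p.2 := by
  classical
  induction G using Finset.induction_on_max_value (fun p : ℚ × ℚ => p.1) with
  | empty => exact ⟨id, strictMono_id, by simp⟩
  | insert a s ha hmax ih =>
    obtain ⟨F, hF, hFs⟩ := ih (fun p hp p' hp' =>
      hG p (Finset.mem_insert_of_mem hp) p' (Finset.mem_insert_of_mem hp'))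
    rcases s.eq_empty_or_nonempty with rfl | hne
    · refine ⟨fun x => x + (a.2 - a.1), fun x y h => by simpa using h, ?_⟩
      simp
    · obtain ⟨m, hm, hmmax⟩ := s.exists_max_image (fun p : ℚ × ℚ => p.1) hne
      have hma : m.1 ≤ a.1 := hmax m hm
      rcases hma.eq_or_lt with heq | hlt
      · refine ⟨F, hF, ?_⟩
        intro p hp
        rcases Finset.mem_insert.1 hp with rfl | hp
        · have h1 := hG m (Finset.mem_insert_of_mem hm) p (Finset.mem_insert_self _ _)
          have h2 := hG p (Finset.mem_insert_self _ _) m (Finset.mem_insert_of_mem hm)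
          have h3 : p.2 = m.2 := le_antisymm (h2.1 heq.ge) (h1.1 heq.le)
          rw [h3, ← heq]
          exact hFs m hm
        · exact hFs p hp
      · have h2 := hG a (Finset.mem_insert_self _ _) m (Finset.mem_insert_of_mem hm)
        have hlt2 : m.2 < a.2 := by
          by_contra hcon
          exact absurd (h2.2 (not_lt.1 hcon)) (not_le.2 hlt)
        have hpos : 0 < (a.2 - m.2) / (a.1 - m.1) := div_pos (sub_pos.2 hlt2) (sub_pos.2 hlt)
        refine ⟨fun x => if x ≤ m.1 then F x else m.2 + (x - m.1) * ((a.2 - m.2) / (a.1 - m.1)),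
          ?_, ?_⟩
        · intro x y hxy
          by_cases hy : y ≤ m.1
          · have hx : x ≤ m.1 := hxy.le.trans hy
            simpa [hx, hy] using hF hxy
          · by_cases hx : x ≤ m.1
            · simp only [hx, hy, if_true, if_false]
              have h3 : F x ≤ m.2 := by
                rw [← hFs m hm]
                exact hF.monotone hx
              have h4 : 0 < (y - m.1) * ((a.2 - m.2) / (a.1 - m.1)) :=
                mul_pos (sub_pos.2 (not_le.1 hy)) hpos
              linarith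
            · simp only [hx, hy, if_false]
              have h4 : (x - m.1) * ((a.2 - m.2) / (a.1 - m.1)) <
                  (y - m.1) * ((a.2 - m.2) / (a.1 - m.1)) :=
                mul_lt_mul_of_pos_right (by linarith) hpos
              linarith
        · intro p hp
          rcases Finset.mem_insert.1 hp with rfl | hp
          · have : ¬ p.1 ≤ m.1 := not_le.2 hlt
            simp only [this, if_false]
            have h5 : p.1 - m.1 ≠ 0 := (sub_pos.2 hlt).ne'
            field_simp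
            ring
          · have : p.1 ≤ m.1 := hmmax p hp
            simp only [this, if_true]
            exact hFs p hp

/-- The same, with one extra point forced to a value above `r`. -/
theorem exists_strictMono_gt (G : Finset (ℚ × ℚ))
    (hG : ∀ p ∈ G, ∀ p' ∈ G, p.1 ≤ p'.1 ↔ p.2 ≤ p'.2) (q r : ℚ)
    (hr : ∀ p ∈ G, q ≤ p.1 → r < p.2) :
    ∃ F : ℚ → ℚ, StrictMono F ∧ (∀ p ∈ G, F p.1 = p.2) ∧ r < F q := by
  classical
  by_cases hq : ∃ p ∈ G, p.1 = q
  · obtain ⟨p, hp, rfl⟩ := hq
    obtain ⟨F, hF, hFs⟩ := exists_strictMono G hG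
    exact ⟨F, hF, hFs, by rw [hFs p hp]; exact hr p hp le_rfl⟩
  · push Not at hq
    obtain ⟨t, ht1, ht2⟩ := Order.exists_between_finsets
      (insert r ((G.filter (fun p => p.1 < q)).image Prod.snd))
      ((G.filter (fun p => q < p.1)).image Prod.snd) (by
        intro x hx y hy
        obtain ⟨p', hp', rfl⟩ := Finset.mem_image.1 hy
        obtain ⟨hp'G, hp'q⟩ := Finset.mem_filter.1 hp'
        rcases Finset.mem_insert.1 hx with rfl | hx
        · exact hr p' hp'G hp'q.le
        · obtain ⟨p, hp, rfl⟩ := Finset.mem_image.1 hx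
          obtain ⟨hpG, hpq⟩ := Finset.mem_filter.1 hp
          have := hG p' hp'G p hpG
          by_contra hcon
          exact absurd (this.2 (not_lt.1 hcon)) (not_le.2 (hpq.trans hp'q)))
    have hlo : ∀ p ∈ G, p.1 < q → p.2 < t := fun p hp h =>
      ht1 _ (Finset.mem_insert_of_mem (Finset.mem_image_of_mem _ (Finset.mem_filter.2 ⟨hp, h⟩)))
    have hhi : ∀ p ∈ G, q < p.1 → t < p.2 := fun p hp h =>
      ht2 _ (Finset.mem_image_of_mem _ (Finset.mem_filter.2 ⟨hp, h⟩))
    obtain ⟨F, hF, hFs⟩ := exists_strictMono (insert (q, t) G) (by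
      intro p hp p' hp'
      rcases Finset.mem_insert.1 hp with rfl | hp <;>
      rcases Finset.mem_insert.1 hp' with rfl | hp'
      · simp
      · rcases lt_or_gt_of_ne (hq p' hp') with h | h
        · simp [not_le.2 h, not_le.2 (hlo p' hp' h)]
        · simp [h.le, (hhi p' hp' h).le]
      · rcases lt_or_gt_of_ne (hq p hp) with h | h
        · simp [h.le, (hlo p hp h).le]
        · simp [not_le.2 h, not_le.2 (hhi p hp h)]
      · exact hG p hp p' hp')
    refine ⟨F, hF, fun p hp => hFs p (Finset.mem_insert_of_mem hp), ?_⟩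
    have := hFs (q, t) (Finset.mem_insert_self _ _)
    simp only at this
    rw [this]
    exact ht1 r (Finset.mem_insert_self _ _)


/-- Embeddings of a bounded lattice into itself. -/
structure IsLatEmb {L : Type*} [Lattice L] [BoundedOrder L] (g : L → L) : Prop where
  le_iff : ∀ x y, g x ≤ g y ↔ x ≤ y
  bot : g ⊥ = ⊥
  top : g ⊤ = ⊤
  inf : ∀ x y, g (x ⊓ y) = g x ⊓ g y
  sup : ∀ x y, g (x ⊔ y) = g x ⊔ g y

namespace HS

variable {k : ℕ}

theorem pt_sup_pt (i j : Fin k) (q r : ℚ) :
    (HS.pt i q ⊔ HS.pt j r : HS k) = if i = j then HS.pt i (max q r) else HS.top := rfl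

theorem pt_inf_pt (i j : Fin k) (q r : ℚ) :
    (HS.pt i q ⊓ HS.pt j r : HS k) = if i = j then HS.pt i (min q r) else HS.bot := rfl

def map (σ : Fin k → Fin k) (F : Fin k → ℚ → ℚ) : HS k → HS k
  | .bot => .bot
  | .pt i q => .pt (σ i) (F i q)
  | .top => .top

theorem isLatEmb_map {σ : Fin k → Fin k} (hσ : Function.Injective σ) {F : Fin k → ℚ → ℚ}
    (hF : ∀ i, StrictMono (F i)) : IsLatEmb (map σ F) where
  le_iff := by
    rintro (_ | ⟨i, q⟩ | _) (_ | ⟨j, r⟩ | _)
    · exact Iff.rfl
    · exact Iff.rfl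
    · exact Iff.rfl
    · exact Iff.rfl
    · show (σ i = σ j ∧ F i q ≤ F j r) ↔ (i = j ∧ q ≤ r)
      constructor
      · rintro ⟨h, h'⟩
        obtain rfl := hσ h
        exact ⟨rfl, (hF i).le_iff_le.1 h'⟩
      · rintro ⟨rfl, h'⟩
        exact ⟨rfl, (hF i).le_iff_le.2 h'⟩
    · exact Iff.rfl
    · exact Iff.rfl
    · exact Iff.rfl
    · exact Iff.rfl
  bot := rfl
  top := rfl
  inf := by
    rintro (_ | ⟨i, q⟩ | _) (_ | ⟨j, r⟩ | _)
    · rfl
    · rfl
    · rfl
    · rfl
    · rw [pt_inf_pt]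
      show _ = (HS.pt (σ i) (F i q) ⊓ HS.pt (σ j) (F j r) : HS k)
      rw [pt_inf_pt]
      by_cases h : i = j
      · subst h
        simp only [if_true]
        show HS.pt (σ i) (F i (min q r)) = _
        rw [(hF i).monotone.map_min]
      · have h' : ¬ σ i = σ j := fun e => h (hσ e)
        simp only [h, h', if_false]
        rfl
    · rfl
    · rfl
    · rfl
    · rfl
  sup := by
    rintro (_ | ⟨i, q⟩ | _) (_ | ⟨j, r⟩ | _)
    · rfl
    · rfl
    · rfl
    · rfl
    · rw [pt_sup_pt]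
      show _ = (HS.pt (σ i) (F i q) ⊔ HS.pt (σ j) (F j r) : HS k)
      rw [pt_sup_pt]
      by_cases h : i = j
      · subst h
        simp only [if_true]
        show HS.pt (σ i) (F i (max q r)) = _
        rw [(hF i).monotone.map_max]
      · have h' : ¬ σ i = σ j := fun e => h (hσ e)
        simp only [h, h', if_false]
        rfl
    · rfl
    · rfl
    · rfl
    · rfl

def coord : HS k → ℚ
  | .pt _ q => q
  | _ => 0

/-- The homogeneity property used for superamalgamation. -/
theorem exists_emb (Z : Finset ℕ) (v w : ℕ → HS k)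
    (hle : ∀ m ∈ Z, ∀ n ∈ Z, v m ≤ v n ↔ w m ≤ w n)
    (hbot : ∀ n ∈ Z, v n = ⊥ ↔ w n = ⊥) (htop : ∀ n ∈ Z, v n = ⊤ ↔ w n = ⊤)
    (a b : HS k) (ha : a ≠ ⊥) (hb : b ≠ ⊤) (hab : ∀ n ∈ Z, ¬ (a ≤ v n ∧ w n ≤ b)) :
    ∃ g : HS k → HS k, IsLatEmb g ∧ (∀ n ∈ Z, g (v n) = w n) ∧ ¬ g a ≤ b := by
  classical
  -- points go to points
  have hpt : ∀ n ∈ Z, ∀ i q, v n = HS.pt i q → ∃ j r, w n = HS.pt j r := by
    intro n hn i q hv
    rcases hw : w n with _ | ⟨j, r⟩ | _
    · have := (hbot n hn).2 hw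
      rw [hv] at this
      exact absurd this (by intro h; cases h)
    · exact ⟨j, r, rfl⟩
    · have := (htop n hn).2 hw
      rw [hv] at this
      exact absurd this (by intro h; cases h)
  have hcomp : ∀ n ∈ Z, ∀ m ∈ Z, ∀ i i' j j' q q' r r', v n = HS.pt i q → v m = HS.pt i' q' →
      w n = HS.pt j r → w m = HS.pt j' r' → (i = i' ↔ j = j') := by
    intro n hn m hm i i' j j' q q' r r' h1 h2 h3 h4
    have e1 := hle n hn m hm
    have e2 := hle m hm n hn
    rw [h1, h2, h3, h4, pt_le_pt, pt_le_pt] at e1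
    rw [h1, h2, h3, h4, pt_le_pt, pt_le_pt] at e2
    constructor
    · rintro rfl
      rcases le_total q q' with h | h
      · exact (e1.1 ⟨rfl, h⟩).1
      · exact (e2.1 ⟨rfl, h⟩).1.symm
    · rintro rfl
      rcases le_total r r' with h | h
      · exact (e1.2 ⟨rfl, h⟩).1
      · exact (e2.2 ⟨rfl, h⟩).1.symm
  let P : Fin k → Fin k → Prop := fun i j => ∃ n ∈ Z, ∃ q r, v n = HS.pt i q ∧ w n = HS.pt j r
  let f : Fin k → Fin k := fun i => if h : ∃ j, P i j then h.choose else i
  have hf : ∀ i j, P i j → f i = j := by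
    intro i j hij
    have hex : ∃ j, P i j := ⟨j, hij⟩
    have : f i = hex.choose := by simp only [f, dif_pos hex]
    rw [this]
    obtain ⟨n, hn, q, r, h1, h2⟩ := hex.choose_spec
    obtain ⟨m, hm, q', r', h3, h4⟩ := hij
    exact (hcomp n hn m hm _ _ _ _ _ _ _ _ h1 h3 h2 h4).1 rfl
  obtain ⟨e, he⟩ := Finset.exists_equiv_extend_of_card_eq (α := Fin k) (β := Fin k)
    (t := Finset.univ) (by simp) (s := Finset.univ.filter (fun i => ∃ j, P i j)) (f := f)
    (Finset.subset_univ _) (by
      intro i hi i' hi' hii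
      simp only [Finset.coe_filter, Finset.mem_univ, true_and, Set.mem_ofPred_eq] at hi hi'
      obtain ⟨j, hj⟩ := hi
      obtain ⟨j', hj'⟩ := hi'
      rw [hf i j hj, hf i' j' hj'] at hii
      obtain ⟨n, hn, q, r, h1, h2⟩ := hj
      obtain ⟨m, hm, q', r', h3, h4⟩ := hj'
      exact (hcomp n hn m hm _ _ _ _ _ _ _ _ h1 h3 h2 h4).2 hii)
  let σ : Fin k → Fin k := fun i => (e i : Fin k)
  have hσ : Function.Injective σ := fun i i' h => e.injective (Subtype.ext h)
  have hσP : ∀ i j, P i j → σ i = j := by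
    intro i j hij
    rw [← hf i j hij]
    exact he i (Finset.mem_filter.2 ⟨Finset.mem_univ _, j, hij⟩)
  have hw : ∀ n ∈ Z, ∀ i q, v n = HS.pt i q → ∃ r, w n = HS.pt (σ i) r := by
    intro n hn i q hv
    obtain ⟨j, r, h⟩ := hpt n hn i q hv
    refine ⟨r, ?_⟩
    rw [hσP i j ⟨n, hn, q, r, hv, h⟩]
    exact h
  have key : ∀ i : Fin k, ∃ F : ℚ → ℚ, StrictMono F ∧
      (∀ n ∈ Z, ∀ q r, v n = HS.pt i q → w n = HS.pt (σ i) r → F q = r) ∧
      (∀ q r, a = HS.pt i q → b = HS.pt (σ i) r → r < F q) := by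
    intro i
    let G : Finset (ℚ × ℚ) := (Z.filter (fun n => ∃ q, v n = HS.pt i q)).image
      (fun n => (coord (v n), coord (w n)))
    have hGmem : ∀ p ∈ G, ∃ n ∈ Z, v n = HS.pt i p.1 ∧ w n = HS.pt (σ i) p.2 := by
      intro p hp
      obtain ⟨n, hn, rfl⟩ := Finset.mem_image.1 hp
      obtain ⟨hnZ, q, hq⟩ := Finset.mem_filter.1 hn
      obtain ⟨r, hr⟩ := hw n hnZ i q hq
      refine ⟨n, hnZ, ?_, ?_⟩
      · rw [hq]; rfl
      · rw [hr]; rfl
    have hG : ∀ p ∈ G, ∀ p' ∈ G, p.1 ≤ p'.1 ↔ p.2 ≤ p'.2 := by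
      intro p hp p' hp'
      obtain ⟨n, hn, h1, h2⟩ := hGmem p hp
      obtain ⟨m, hm, h3, h4⟩ := hGmem p' hp'
      have := hle n hn m hm
      rw [h1, h2, h3, h4, pt_le_pt, pt_le_pt] at this
      simpa using this
    have hGin : ∀ n ∈ Z, ∀ q r, v n = HS.pt i q → w n = HS.pt (σ i) r → (q, r) ∈ G := by
      intro n hn q r h1 h2
      refine Finset.mem_image.2 ⟨n, Finset.mem_filter.2 ⟨hn, q, h1⟩, ?_⟩
      rw [h1, h2]; rfl
    by_cases hspecial : ∃ q r, a = HS.pt i q ∧ b = HS.pt (σ i) r
    · obtain ⟨q, r, rfl, rfl⟩ := hspecial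
      obtain ⟨F, hF, hFG, hFq⟩ := exists_strictMono_gt G hG q r (by
        intro p hp hqp
        obtain ⟨n, hn, h1, h2⟩ := hGmem p hp
        have := hab n hn
        rw [h1, h2, pt_le_pt, pt_le_pt] at this
        by_contra hcon
        exact this ⟨⟨rfl, hqp⟩, rfl, not_lt.1 hcon⟩)
      refine ⟨F, hF, fun n hn q' r' h1 h2 => hFG _ (hGin n hn q' r' h1 h2), ?_⟩
      intro q' r' h1 h2
      cases h1; cases h2
      exact hFq
    · obtain ⟨F, hF, hFG⟩ := exists_strictMono G hG
      refine ⟨F, hF, fun n hn q' r' h1 h2 => hFG _ (hGin n hn q' r' h1 h2), ?_⟩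
      intro q' r' h1 h2
      exact absurd ⟨q', r', h1, h2⟩ hspecial
  choose F hF hFZ hFab using key
  refine ⟨map σ F, isLatEmb_map hσ hF, ?_, ?_⟩
  · intro n hn
    rcases hv : v n with _ | ⟨i, q⟩ | _
    · exact ((hbot n hn).1 hv).symm
    · obtain ⟨r, hr⟩ := hw n hn i q hv
      rw [hr]
      show HS.pt (σ i) (F i q) = _
      rw [hFZ i n hn q r hv hr]
    · exact ((htop n hn).1 hv).symm
  · intro hcon
    rcases a with _ | ⟨i, q⟩ | _
    · exact ha rfl
    · rcases b with _ | ⟨j, r⟩ | _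
      · exact hcon
      · obtain ⟨h1, h2⟩ : σ i = j ∧ F i q ≤ r := hcon
        subst h1
        exact absurd (hFab i q r rfl rfl) (not_lt.2 h2)
      · exact hb rfl
    · rcases b with _ | ⟨j, r⟩ | _
      · exact hcon
      · exact hcon
      · exact hb rfl

end HS


namespace Alg

variable {L : Type*} [Lattice L] [BoundedOrder L]

theorem lat_le_lat {x y : L} : (Alg.lat x ≤ Alg.lat y) ↔ x ≤ y := Iff.rfl

theorem top_eq : (⊤ : Alg L) = Alg.top := rfl

theorem bot_eq : (⊥ : Alg L) = Alg.bot := rfl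

theorem one_eq : (1 : Alg L) = Alg.top := rfl

def map (g : L → L) : Alg L → Alg L
  | .bot => .bot
  | .lat x => .lat (g x)
  | .u => .u
  | .d => .d
  | .top => .top

theorem isHom_map {g : L → L} (hg : IsLatEmb g) : IsHom (map g) where
  one := rfl
  bot := rfl
  inf := by
    rintro (_ | x | _ | _ | _) (_ | y | _ | _ | _) <;> try rfl
    exact congrArg Alg.lat (hg.inf x y)
  sup := by
    rintro (_ | x | _ | _ | _) (_ | y | _ | _ | _) <;> try rfl
    exact congrArg Alg.lat (hg.sup x y)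
  mul := by
    rintro (_ | x | _ | _ | _) (_ | y | _ | _ | _) <;> try rfl
    all_goals exact congrArg Alg.lat hg.bot
  res := by
    classical
    rintro (_ | x | _ | _ | _) (_ | y | _ | _ | _) <;> try rfl
    · show map g (if x ≤ y then Alg.top else Alg.d) = if g x ≤ g y then Alg.top else Alg.d
      by_cases h : x ≤ y
      · simp [h, (hg.le_iff x y).2 h, map]
      · simp [h, mt (hg.le_iff x y).1 h, map]
    all_goals exact congrArg Alg.lat hg.top

/-- The two homomorphisms onto the two-element subalgebra. -/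
def hL : Alg L → Alg L
  | .bot => .bot
  | .lat _ => .top
  | .u => .bot
  | .d => .top
  | .top => .top

def hM : Alg L → Alg L
  | .bot => .bot
  | .lat _ => .bot
  | .u => .top
  | .d => .top
  | .top => .top

theorem isHom_hL : IsHom (hL : Alg L → Alg L) where
  one := rfl
  bot := rfl
  inf := by rintro (_ | x | _ | _ | _) (_ | y | _ | _ | _) <;> rfl
  sup := by rintro (_ | x | _ | _ | _) (_ | y | _ | _ | _) <;> rfl
  mul := by rintro (_ | x | _ | _ | _) (_ | y | _ | _ | _) <;> rfl
  res := by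
    classical
    rintro (_ | x | _ | _ | _) (_ | y | _ | _ | _) <;> try rfl
    show hL (if x ≤ y then Alg.top else Alg.d) = Alg.top
    by_cases h : x ≤ y <;> simp [h, hL]

theorem isHom_hM : IsHom (hM : Alg L → Alg L) where
  one := rfl
  bot := rfl
  inf := by rintro (_ | x | _ | _ | _) (_ | y | _ | _ | _) <;> rfl
  sup := by rintro (_ | x | _ | _ | _) (_ | y | _ | _ | _) <;> rfl
  mul := by rintro (_ | x | _ | _ | _) (_ | y | _ | _ | _) <;> rfl
  res := by
    classical
    rintro (_ | x | _ | _ | _) (_ | y | _ | _ | _) <;> try rfl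
    show hM (if x ≤ y then Alg.top else Alg.d) = Alg.top
    by_cases h : x ≤ y <;> simp [h, hM]

theorem isHom_id : IsHom (id : Alg L → Alg L) := ⟨rfl, rfl, fun _ _ => rfl, fun _ _ => rfl,
  fun _ _ => rfl, fun _ _ => rfl⟩

/-- Two-valued homomorphisms. -/
structure IsHom2 (h : Alg L → Alg L) : Prop extends IsHom h where
  two : ∀ x, h x = ⊥ ∨ h x = 1

theorem isHom2_hL : IsHom2 (hL : Alg L → Alg L) :=
  ⟨isHom_hL, by rintro (_ | x | _ | _ | _) <;> first | exact Or.inl rfl | exact Or.inr rfl⟩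

theorem isHom2_hM : IsHom2 (hM : Alg L → Alg L) :=
  ⟨isHom_hM, by rintro (_ | x | _ | _ | _) <;> first | exact Or.inl rfl | exact Or.inr rfl⟩

theorem bot_ne_one : (⊥ : Alg L) ≠ 1 := fun h => by cases h

theorem res_bot_bot : FLew.res (⊥ : Alg L) ⊥ = 1 := rfl

theorem res_one_bot : FLew.res (1 : Alg L) ⊥ = ⊥ := rfl

/-- Double negation of `x` dominates `a` as soon as this holds for both shadows. -/
theorem le_nn {a x : Alg L} (h1 : hL a = 1 → hL x = 1) (h2 : hM a = 1 → hM x = 1) :
    a ≤ FLew.res (FLew.res x ⊥) ⊥ := by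
  rcases a with _ | a | _ | _ | _ <;> rcases x with _ | x | _ | _ | _ <;>
  first
  | exact trivial
  | exact lat_le_lat.2 le_top
  | exact absurd (h1 rfl : (⊥ : Alg L) = 1) bot_ne_one
  | exact absurd (h2 rfl : (⊥ : Alg L) = 1) bot_ne_one

end Alg

/-! ### Finite sets of candidate interpolants -/

/-- Formulas over the variables in `Z` of bounded depth. -/
def Delta (Z : Finset ℕ) : ℕ → Finset Fm
  | 0 => Z.image Fm.var ∪ {Fm.e, Fm.f}
  | n + 1 => Delta Z n ∪ ((Delta Z n ×ˢ Delta Z n).image (fun p => Fm.conj p.1 p.2) ∪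
      ((Delta Z n ×ˢ Delta Z n).image (fun p => Fm.disj p.1 p.2) ∪
      ((Delta Z n ×ˢ Delta Z n).image (fun p => Fm.fus p.1 p.2) ∪
      (Delta Z n ×ˢ Delta Z n).image (fun p => Fm.imp p.1 p.2))))

theorem Delta_succ_subset (Z : Finset ℕ) (n : ℕ) : Delta Z n ⊆ Delta Z (n + 1) := by
  intro a ha
  simp only [Delta, Finset.mem_union]
  exact Or.inl ha

theorem Delta_mono (Z : Finset ℕ) {m n : ℕ} (h : m ≤ n) : Delta Z m ⊆ Delta Z n := by
  induction h with
  | refl => exact subset_rfl
  | step _ ih => exact ih.trans (Delta_succ_subset Z _)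

theorem mem_Delta_conj {Z : Finset ℕ} {m n : ℕ} {a b : Fm} (ha : a ∈ Delta Z m)
    (hb : b ∈ Delta Z m) (h : m < n) : Fm.conj a b ∈ Delta Z n := by
  refine Delta_mono Z (Nat.succ_le_of_lt h) ?_
  simp only [Delta, Finset.mem_union, Finset.mem_image, Finset.mem_product]
  exact Or.inr (Or.inl ⟨(a, b), ⟨ha, hb⟩, rfl⟩)

theorem mem_Delta_disj {Z : Finset ℕ} {m n : ℕ} {a b : Fm} (ha : a ∈ Delta Z m)
    (hb : b ∈ Delta Z m) (h : m < n) : Fm.disj a b ∈ Delta Z n := by
  refine Delta_mono Z (Nat.succ_le_of_lt h) ?_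
  simp only [Delta, Finset.mem_union, Finset.mem_image, Finset.mem_product]
  exact Or.inr (Or.inr (Or.inl ⟨(a, b), ⟨ha, hb⟩, rfl⟩))

theorem mem_Delta_fus {Z : Finset ℕ} {m n : ℕ} {a b : Fm} (ha : a ∈ Delta Z m)
    (hb : b ∈ Delta Z m) (h : m < n) : Fm.fus a b ∈ Delta Z n := by
  refine Delta_mono Z (Nat.succ_le_of_lt h) ?_
  simp only [Delta, Finset.mem_union, Finset.mem_image, Finset.mem_product]
  exact Or.inr (Or.inr (Or.inr (Or.inl ⟨(a, b), ⟨ha, hb⟩, rfl⟩)))

theorem mem_Delta_imp {Z : Finset ℕ} {m n : ℕ} {a b : Fm} (ha : a ∈ Delta Z m)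
    (hb : b ∈ Delta Z m) (h : m < n) : Fm.imp a b ∈ Delta Z n := by
  refine Delta_mono Z (Nat.succ_le_of_lt h) ?_
  simp only [Delta, Finset.mem_union, Finset.mem_image, Finset.mem_product]
  exact Or.inr (Or.inr (Or.inr (Or.inr ⟨(a, b), ⟨ha, hb⟩, rfl⟩)))

theorem mem_Delta_var {Z : Finset ℕ} {i : ℕ} (n : ℕ) (h : i ∈ Z) : Fm.var i ∈ Delta Z n := by
  refine Delta_mono Z (Nat.zero_le n) ?_
  simp only [Delta, Finset.mem_union]
  exact Or.inl (Finset.mem_image_of_mem _ h)

theorem mem_Delta_e (Z : Finset ℕ) (n : ℕ) : Fm.e ∈ Delta Z n :=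
  Delta_mono Z (Nat.zero_le n) (by simp [Delta])

theorem mem_Delta_f (Z : Finset ℕ) (n : ℕ) : Fm.f ∈ Delta Z n :=
  Delta_mono Z (Nat.zero_le n) (by simp [Delta])

theorem vars_of_mem_Delta {Z : Finset ℕ} {n : ℕ} {a : Fm} (h : a ∈ Delta Z n) :
    a.vars ⊆ (Z : Set ℕ) := by
  induction n generalizing a with
  | zero =>
    simp only [Delta, Finset.mem_union, Finset.mem_image, Finset.mem_insert,
      Finset.mem_singleton] at h
    rcases h with ⟨i, hi, rfl⟩ | rfl | rfl
    · intro j hj
      rw [Set.mem_singleton_iff.1 hj]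
      exact hi
    · exact Set.empty_subset _
    · exact Set.empty_subset _
  | succ n ih =>
    simp only [Delta, Finset.mem_union, Finset.mem_image, Finset.mem_product] at h
    rcases h with h | ⟨⟨b, c⟩, ⟨h1, h2⟩, rfl⟩ | ⟨⟨b, c⟩, ⟨h1, h2⟩, rfl⟩ | ⟨⟨b, c⟩, ⟨h1, h2⟩, rfl⟩ |
      ⟨⟨b, c⟩, ⟨h1, h2⟩, rfl⟩
    · exact ih h
    all_goals exact Set.union_subset (ih h1) (ih h2)

section Reach

variable {A : Type*} [FLew A]

/-- The pair `(x, y)` is the pair of values of one formula from `Delta Z n`. -/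
def Reach (Z : Finset ℕ) (v w : ℕ → A) (n : ℕ) (x y : A) : Prop :=
  ∃ a ∈ Delta Z n, eval v a = x ∧ eval w a = y

variable {Z : Finset ℕ} {v w : ℕ → A}

theorem Reach.mono {m n : ℕ} {x y : A} (h : Reach Z v w m x y) (hmn : m ≤ n) :
    Reach Z v w n x y := by
  obtain ⟨a, ha, h1, h2⟩ := h
  exact ⟨a, Delta_mono Z hmn ha, h1, h2⟩

theorem Reach.var {i : ℕ} (h : i ∈ Z) (n : ℕ) : Reach Z v w n (v i) (w i) :=
  ⟨Fm.var i, mem_Delta_var n h, rfl, rfl⟩

theorem Reach.one (n : ℕ) : Reach Z v w n 1 1 := ⟨Fm.e, mem_Delta_e Z n, rfl, rfl⟩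

theorem Reach.zero (n : ℕ) : Reach Z v w n ⊥ ⊥ := ⟨Fm.f, mem_Delta_f Z n, rfl, rfl⟩

theorem Reach.inf {m n : ℕ} {x y x' y' : A} (h : Reach Z v w m x y) (h' : Reach Z v w m x' y')
    (hmn : m < n) : Reach Z v w n (x ⊓ x') (y ⊓ y') := by
  obtain ⟨a, ha, rfl, rfl⟩ := h
  obtain ⟨b, hb, rfl, rfl⟩ := h'
  exact ⟨Fm.conj a b, mem_Delta_conj ha hb hmn, rfl, rfl⟩

theorem Reach.sup {m n : ℕ} {x y x' y' : A} (h : Reach Z v w m x y) (h' : Reach Z v w m x' y')
    (hmn : m < n) : Reach Z v w n (x ⊔ x') (y ⊔ y') := by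
  obtain ⟨a, ha, rfl, rfl⟩ := h
  obtain ⟨b, hb, rfl, rfl⟩ := h'
  exact ⟨Fm.disj a b, mem_Delta_disj ha hb hmn, rfl, rfl⟩

theorem Reach.mul {m n : ℕ} {x y x' y' : A} (h : Reach Z v w m x y) (h' : Reach Z v w m x' y')
    (hmn : m < n) : Reach Z v w n (x * x') (y * y') := by
  obtain ⟨a, ha, rfl, rfl⟩ := h
  obtain ⟨b, hb, rfl, rfl⟩ := h'
  exact ⟨Fm.fus a b, mem_Delta_fus ha hb hmn, rfl, rfl⟩

theorem Reach.res {m n : ℕ} {x y x' y' : A} (h : Reach Z v w m x y) (h' : Reach Z v w m x' y')
    (hmn : m < n) : Reach Z v w n (FLew.res x x') (FLew.res y y') := by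
  obtain ⟨a, ha, rfl, rfl⟩ := h
  obtain ⟨b, hb, rfl, rfl⟩ := h'
  exact ⟨Fm.imp a b, mem_Delta_imp ha hb hmn, rfl, rfl⟩

end Reach


/-- Double negation. -/
def nn {A : Type*} [FLew A] (x : A) : A := FLew.res (FLew.res x ⊥) ⊥

theorem Reach.nn {A : Type*} [FLew A] {Z : Finset ℕ} {v w : ℕ → A} {m n : ℕ} {x y : A}
    (h : Reach Z v w m x y) (hmn : m + 1 < n) :
    Reach Z v w n (InfinitelyManyCIP.nn x) (InfinitelyManyCIP.nn y) :=
  (h.res (Reach.zero m) (Nat.lt_succ_self m)).res (Reach.zero (m + 1)) hmn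

namespace Alg

variable {k : ℕ}

theorem eq_one_iff_of {A : Type*} [FLew A] {x : A} : x = 1 ↔ 1 ≤ x :=
  ⟨fun h => h.ge, fun h => le_antisymm (le_one_of x) h⟩

/-- Projection to the lattice part. -/
def getL : Alg (HS k) → HS k
  | .lat x => x
  | _ => ⊥

theorem exists_hom (Z : Finset ℕ) (v w : ℕ → Alg (HS k))
    (hE : ∀ x y, Reach Z v w 3 x y → (x = 1 ↔ y = 1)) (a b : HS k) (ha : a ≠ ⊥) (hb : b ≠ ⊤)
    (hab : ∀ n ∈ Z, ¬ (lat a ≤ v n ∧ w n ≤ lat b)) :
    ∃ f : Alg (HS k) → Alg (HS k), IsHom f ∧ (∀ n ∈ Z, f (v n) = w n) ∧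
      ¬ f (lat a) ≤ lat b := by
  classical
  have hord : ∀ m ∈ Z, ∀ n ∈ Z, v m ≤ v n ↔ w m ≤ w n := by
    intro m hm n hn
    have := hE _ _ ((Reach.var hm 0).res (Reach.var hn 0) (by norm_num))
    rwa [res_eq_one, res_eq_one] at this
  have hcl : ∀ n ∈ Z, (v n = bot ∧ w n = bot) ∨ (v n = top ∧ w n = top) ∨ (v n = d ∧ w n = d) ∨
      (v n = u ∧ w n = u) ∨ (∃ x y, v n = lat x ∧ w n = lat y ∧ (x ≤ ⊥ ↔ y ≤ ⊥) ∧
        (⊤ ≤ x ↔ ⊤ ≤ y)) := by
    intro n hn
    have r0 : Reach Z v w 0 (v n) (w n) := Reach.var hn 0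
    have f1 := hE _ _ (r0.mono (by norm_num))
    have f0 := hE _ _ (r0.res (Reach.zero 0) (n := 3) (by norm_num))
    have f2 := hE _ _ (r0.nn (n := 3) (by norm_num))
    have r1 : Reach Z v w 1 (v n * v n) (w n * w n) := r0.mul r0 (by norm_num)
    have r2 : Reach Z v w 2 (nn (v n)) (nn (w n)) := r0.nn (by norm_num)
    have f3 := hE _ _ (r2.res (r1.mono (by norm_num)) (by norm_num))
    have f4 := hE _ _ ((r0.mono (by norm_num)).res r1 (n := 3) (by norm_num))
    have f5 := hE _ _ (r2.res (r0.mono (by norm_num)) (by norm_num))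
    rw [res_eq_one, res_eq_one] at f0 f3 f4 f5
    rw [eq_one_iff_of, eq_one_iff_of] at f1 f2
    rcases hv : v n with _ | x | _ | _ | _ <;> rcases hw : w n with _ | y | _ | _ | _ <;>
      rw [hv, hw] at f0 f1 f2 f3 f4 f5 <;>
    first
    | exact Or.inl ⟨rfl, rfl⟩
    | exact Or.inr (Or.inl ⟨rfl, rfl⟩)
    | exact Or.inr (Or.inr (Or.inl ⟨rfl, rfl⟩))
    | exact Or.inr (Or.inr (Or.inr (Or.inl ⟨rfl, rfl⟩)))
    | exact Or.inr (Or.inr (Or.inr (Or.inr ⟨x, y, rfl, rfl, f4, f5⟩)))
    | exact False.elim (f0.1 trivial)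
    | exact False.elim (f0.2 trivial)
    | exact False.elim (f1.1 trivial)
    | exact False.elim (f1.2 trivial)
    | exact False.elim (f2.1 trivial)
    | exact False.elim (f2.2 trivial)
    | exact False.elim (f3.1 trivial)
    | exact False.elim (f3.2 trivial)
  let ZL : Finset ℕ := Z.filter (fun n => ∃ x, v n = lat x)
  have hZL : ∀ n ∈ ZL, n ∈ Z ∧ ∃ x y, v n = lat x ∧ w n = lat y ∧ (x ≤ ⊥ ↔ y ≤ ⊥) ∧
        (⊤ ≤ x ↔ ⊤ ≤ y) := by
    intro n hn
    obtain ⟨hnZ, x, hx⟩ := Finset.mem_filter.1 hn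
    refine ⟨hnZ, ?_⟩
    rcases hcl n hnZ with h | h | h | h | h
    · rw [hx] at h; cases h.1
    · rw [hx] at h; cases h.1
    · rw [hx] at h; cases h.1
    · rw [hx] at h; cases h.1
    · exact h
  obtain ⟨g, hg, hgv, hgab⟩ := HS.exists_emb ZL (fun n => getL (v n)) (fun n => getL (w n))
    (by
      intro m hm n hn
      obtain ⟨hmZ, x, y, h1, h2, -, -⟩ := hZL m hm
      obtain ⟨hnZ, x', y', h3, h4, -, -⟩ := hZL n hn
      have := hord m hmZ n hnZ
      rw [h1, h2, h3, h4] at this
      simp only [h1, h2, h3, h4]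
      exact this)
    (by
      intro n hn
      obtain ⟨hnZ, x, y, h1, h2, h3, -⟩ := hZL n hn
      simp only [h1, h2]
      exact ⟨fun h => le_bot_iff.1 (h3.1 (le_of_eq h)), fun h => le_bot_iff.1 (h3.2 (le_of_eq h))⟩)
    (by
      intro n hn
      obtain ⟨hnZ, x, y, h1, h2, -, h3⟩ := hZL n hn
      simp only [h1, h2]
      exact ⟨fun h => top_le_iff.1 (h3.1 (ge_of_eq h)), fun h => top_le_iff.1 (h3.2 (ge_of_eq h))⟩)
    a b ha hb
    (by
      intro n hn hcon
      obtain ⟨hnZ, x, y, h1, h2, -, -⟩ := hZL n hn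
      simp only [h1, h2] at hcon
      refine hab n hnZ ?_
      rw [h1, h2]
      exact hcon)
  refine ⟨map g, isHom_map hg, ?_, hgab⟩
  intro n hn
  rcases hcl n hn with ⟨h1, h2⟩ | ⟨h1, h2⟩ | ⟨h1, h2⟩ | ⟨h1, h2⟩ | ⟨x, y, h1, h2, -, -⟩
  · rw [h1, h2]; rfl
  · rw [h1, h2]; rfl
  · rw [h1, h2]; rfl
  · rw [h1, h2]; rfl
  · have := hgv n (Finset.mem_filter.2 ⟨hn, x, h1⟩)
    simp only [h1, h2] at this
    rw [h1, h2]
    exact congrArg Alg.lat this

/-- Separation by a two-valued pair of homomorphisms. -/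
theorem exists_sep {Z : Finset ℕ} {v w : ℕ → Alg (HS k)} {h h' : Alg (HS k) → Alg (HS k)}
    (hh : IsHom2 h) (hh' : IsHom2 h') (hne : ¬ ∀ n ∈ Z, h (v n) = h' (w n)) :
    ∃ s t, Reach Z v w 1 s t ∧ h s = 1 ∧ h' t = ⊥ := by
  classical
  simp only [not_forall] at hne
  obtain ⟨n, hn, hne⟩ := hne
  rcases hh.two (v n) with h1 | h1 <;> rcases hh'.two (w n) with h2 | h2
  · exact absurd (h1.trans h2.symm) hne
  · refine ⟨FLew.res (v n) ⊥, FLew.res (w n) ⊥, (Reach.var hn 0).res (Reach.zero 0) (by norm_num),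
      ?_, ?_⟩
    · rw [hh.res, h1, hh.bot]; rfl
    · rw [hh'.res, h2, hh'.bot]; rfl
  · exact ⟨v n, w n, Reach.var hn 1, h1, h2⟩
  · exact absurd (h1.trans h2.symm) hne

theorem le_d_of_ne_one {x : Alg (HS k)} (h : x ≠ 1) : x ≤ d := by
  rcases x with _ | x | _ | _ | _
  · trivial
  · trivial
  · trivial
  · trivial
  · exact absurd rfl h

theorem not_one_le_d : ¬ ((1 : Alg (HS k)) ≤ d) := fun h => h

theorem reach_one_d {Z : Finset ℕ} {v w : ℕ → Alg (HS k)} {m n : ℕ} {x y : Alg (HS k)}
    (hdd : Reach Z v w m d d) (h : Reach Z v w m x y) (hne : ¬ (x = 1 ↔ y = 1)) (hmn : m < n) :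
    Reach Z v w n 1 d := by
  by_cases hx : x = 1
  · have hy : y ≠ 1 := fun hy => hne ⟨fun _ => hy, fun _ => hx⟩
    have := h.sup hdd hmn
    rwa [hx, sup_eq_left.2 (le_one_of d), sup_eq_right.2 (le_d_of_ne_one hy)] at this
  · have hy : y = 1 := by
      by_contra hy
      exact hne ⟨fun h => absurd h hx, fun h => absurd h hy⟩
    have := h.res hdd hmn
    rwa [res_eq_one.2 (le_d_of_ne_one hx), hy] at this

theorem key (Z : Finset ℕ) (v w : ℕ → Alg (HS k)) (a b : Alg (HS k))
    (hab : ∀ f g : Alg (HS k) → Alg (HS k), IsHom f → IsHom g →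
      (∀ n ∈ Z, f (v n) = g (w n)) → f a ≤ g b) :
    ∃ x y, Reach Z v w 9 x y ∧ a ≤ x ∧ y ≤ b := by
  classical
  by_cases ha : a = ⊥
  · exact ⟨⊥, ⊥, Reach.zero _, ha.le, bot_le⟩
  by_cases hb : b = 1
  · exact ⟨1, 1, Reach.one _, le_one_of _, hb.ge⟩
  by_cases hbd : b = d
  · subst hbd
    by_cases hw : ∀ n ∈ Z, w n = ⊥ ∨ w n = 1
    · have hsep : ∀ h : Alg (HS k) → Alg (HS k), IsHom2 h →
          ∃ s, Reach Z v w 1 s ⊥ ∧ (h a = 1 → h s = 1) := by
        intro h hh
        by_cases h1 : h a = 1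
        · have hne : ¬ ∀ n ∈ Z, h (v n) = id (w n) := by
            intro hall
            have := hab h id hh.toIsHom isHom_id hall
            rw [h1] at this
            exact not_one_le_d this
          simp only [not_forall] at hne
          obtain ⟨n, hn, hne⟩ := hne
          rcases hh.two (v n) with h2 | h2 <;> rcases hw n hn with h3 | h3
          · exact absurd (h2.trans h3.symm) hne
          · refine ⟨FLew.res (v n) ⊥, ?_, fun _ => ?_⟩
            · have := (Reach.var (v := v) (w := w) hn 0).res (Reach.zero 0) (n := 1) (by norm_num)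
              rwa [h3, res_one_bot] at this
            · rw [hh.res, h2, hh.bot]; rfl
          · refine ⟨v n, ?_, fun _ => h2⟩
            have := Reach.var (v := v) (w := w) hn 1
            rwa [h3] at this
          · exact absurd (h2.trans h3.symm) hne
        · exact ⟨⊥, Reach.zero 1, fun h2 => absurd h2 h1⟩
      obtain ⟨s₁, hs₁, h₁⟩ := hsep hL isHom2_hL
      obtain ⟨s₂, hs₂, h₂⟩ := hsep hM isHom2_hM
      have h3 := (hs₁.sup hs₂ (n := 2) (by norm_num)).nn (n := 9) (by norm_num)
      refine ⟨_, _, h3, ?_, ?_⟩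
      · refine le_nn (fun h => ?_) (fun h => ?_)
        · rw [isHom_hL.sup, h₁ h]
          exact sup_eq_left.2 (le_one_of _)
        · rw [isHom_hM.sup, h₂ h]
          exact sup_eq_right.2 (le_one_of _)
      · rw [sup_idem]
        exact trivial
    · simp only [not_forall] at hw
      obtain ⟨n, hn, hwn⟩ := hw
      have r0 : Reach Z v w 0 (v n) (w n) := Reach.var hn 0
      have r1 := (r0.mono (Nat.zero_le 1)).sup
        (r0.res (Reach.zero 0) (n := 1) (by norm_num)) (n := 2) (by norm_num)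
      have hy : w n ⊔ FLew.res (w n) ⊥ = d := by
        rcases hw' : w n with _ | x | _ | _ | _
        · exact absurd (Or.inl hw') hwn
        · rfl
        · rfl
        · rfl
        · exact absurd (Or.inr hw') hwn
      have hx : v n ⊔ FLew.res (v n) ⊥ = d ∨ v n ⊔ FLew.res (v n) ⊥ = 1 := by
        rcases v n with _ | x | _ | _ | _
        · exact Or.inr rfl
        · exact Or.inl rfl
        · exact Or.inl rfl
        · exact Or.inl rfl
        · exact Or.inr rfl
      rw [hy] at r1
      rcases hx with hx | hx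
      · rw [hx] at r1
        by_cases ha1 : a = 1
        · by_cases hE : ∀ x y, Reach Z v w 3 x y → (x = 1 ↔ y = 1)
          · obtain ⟨f, hf, hfv, -⟩ := exists_hom Z v w hE ⊤ ⊥ (fun h => by cases h)
              (fun h => by cases h) (by
                rintro m hm ⟨h1, h2⟩
                have q0 : Reach Z v w 0 (v m) (w m) := Reach.var hm 0
                have f2 := hE _ _ (q0.nn (n := 3) (by norm_num))
                have f4 := hE _ _ ((q0.mono (Nat.zero_le 1)).res
                  (q0.mul q0 (n := 1) (by norm_num)) (n := 3) (by norm_num))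
                rw [res_eq_one, res_eq_one] at f4
                rw [eq_one_iff_of, eq_one_iff_of] at f2
                rcases hv : v m with _ | x | _ | _ | _ <;>
                rcases hw : w m with _ | y | _ | _ | _ <;>
                  rw [hv, hw] at f2 f4 <;> rw [hv] at h1 <;> rw [hw] at h2 <;>
                first
                | exact h1
                | exact h2
                | exact f2.1 trivial
                | (have h1' : x = ⊤ := top_le_iff.1 h1
                   subst h1'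
                   first
                   | exact f4.2 trivial
                   | (have h2' : y ≤ ⊥ := h2
                      exact f4.2 h2')))
            have := hab f id hf isHom_id hfv
            rw [ha1, hf.one] at this
            exact absurd this not_one_le_d
          · simp only [not_forall] at hE
            obtain ⟨x, y, hxy, hne⟩ := hE
            have := reach_one_d (r1.mono (by norm_num : 2 ≤ 3)) hxy hne (n := 9) (by norm_num)
            exact ⟨_, _, this, le_one_of _, le_rfl⟩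
        · exact ⟨_, _, r1.mono (by norm_num), le_d_of_ne_one ha1, le_rfl⟩
      · rw [hx] at r1
        exact ⟨_, _, r1.mono (by norm_num), le_one_of _, le_rfl⟩
  · have hsep : ∀ h : Alg (HS k) → Alg (HS k), IsHom2 h →
        ∃ s t, Reach Z v w 2 s t ∧ (h a = 1 → h s = 1) ∧ (hL b = ⊥ → hL t = ⊥) ∧
          (hM b = ⊥ → hM t = ⊥) := by
      intro h hh
      by_cases h1 : h a = 1
      · have aux : ∀ h' : Alg (HS k) → Alg (HS k), IsHom2 h' →
            ∃ s t, Reach Z v w 1 s t ∧ h s = 1 ∧ (h' b = ⊥ → h' t = ⊥) := by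
          intro h' hh'
          by_cases h2 : h' b = ⊥
          · obtain ⟨s, t, h3, h4, h5⟩ := exists_sep hh hh' (by
              intro hall
              have := hab h h' hh.toIsHom hh'.toIsHom hall
              rw [h1, h2] at this
              exact this)
            exact ⟨s, t, h3, h4, fun _ => h5⟩
          · exact ⟨1, 1, Reach.one 1, hh.one, fun h3 => absurd h3 h2⟩
        obtain ⟨s₁, t₁, r₁, p₁, q₁⟩ := aux hL isHom2_hL
        obtain ⟨s₂, t₂, r₂, p₂, q₂⟩ := aux hM isHom2_hM
        refine ⟨_, _, r₁.inf r₂ (by norm_num), fun _ => ?_, fun h2 => ?_, fun h2 => ?_⟩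
        · rw [hh.inf, p₁, p₂, inf_idem]
        · rw [isHom_hL.inf, q₁ h2, bot_inf_eq]
        · rw [isHom_hM.inf, q₂ h2, inf_bot_eq]
      · exact ⟨⊥, ⊥, Reach.zero 2, fun h2 => absurd h2 h1, fun _ => rfl, fun _ => rfl⟩
    obtain ⟨s₁, t₁, r₁, p₁, q₁, q₁'⟩ := hsep hL isHom2_hL
    obtain ⟨s₂, t₂, r₂, p₂, q₂, q₂'⟩ := hsep hM isHom2_hM
    obtain ⟨s, t, hst, hsL, hsM, htL, htM⟩ : ∃ s t, Reach Z v w 3 s t ∧ (hL a = 1 → hL s = 1) ∧
        (hM a = 1 → hM s = 1) ∧ (hL b = ⊥ → hL t = ⊥) ∧ (hM b = ⊥ → hM t = ⊥) := by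
      refine ⟨_, _, r₁.sup r₂ (by norm_num), fun h => ?_, fun h => ?_, fun h => ?_, fun h => ?_⟩
      · rw [isHom_hL.sup, p₁ h]
        exact sup_eq_left.2 (le_one_of _)
      · rw [isHom_hM.sup, p₂ h]
        exact sup_eq_right.2 (le_one_of _)
      · rw [isHom_hL.sup, q₁ h, q₂ h, sup_idem]
      · rw [isHom_hM.sup, q₁' h, q₂' h, sup_idem]
    have hnn : Reach Z v w 5 (nn s) (nn t) := hst.nn (by norm_num)
    have hann : a ≤ nn s := le_nn hsL hsM
    rcases b with _ | y | _ | _ | _
    · refine ⟨_, _, hnn.mono (by norm_num), hann, ?_⟩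
      have h1 := htL rfl
      have h2 := htM rfl
      rcases t with _ | t | _ | _ | _
      · trivial
      · cases h1
      · cases h2
      · cases h1
      · cases h1
    · have h2 := htM rfl
      rcases t with _ | t | _ | _ | _
      · exact ⟨_, _, hnn.mono (by norm_num), hann, trivial⟩
      · have hsq := hnn.mul hnn (n := 9) (by norm_num)
        have hsq6 := hnn.mul hnn (n := 6) (by norm_num)
        rcases s with _ | s | _ | _ | _
        · exact absurd (le_bot_iff.1 hann) ha
        · rcases a with _ | a | _ | _ | _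
          · exact absurd rfl ha
          · by_cases ha0 : a = ⊥
            · subst ha0
              exact ⟨_, _, hsq, le_rfl, lat_le_lat.2 bot_le⟩
            by_cases hy1 : y = ⊤
            · subst hy1
              exact ⟨_, _, hnn.mono (by norm_num), hann, le_rfl⟩
            by_cases hn : ∃ n ∈ Z, lat a ≤ v n ∧ w n ≤ lat y
            · obtain ⟨n, hn, h3, h4⟩ := hn
              exact ⟨_, _, Reach.var hn 9, h3, h4⟩
            by_cases hE : ∀ x y, Reach Z v w 3 x y → (x = 1 ↔ y = 1)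
            · obtain ⟨f, hf, hfv, hfab⟩ := exists_hom Z v w hE a y ha0 hy1
                (fun n hnZ hcon => hn ⟨n, hnZ, hcon⟩)
              exact absurd (hab f id hf isHom_id hfv) hfab
            · simp only [not_forall] at hE
              obtain ⟨x', y', hxy, hne⟩ := hE
              have hc : Reach Z v w 5 (lat ⊤) (lat ⊤) := hnn
              have hu : Reach Z v w 6 u u := hc.res (Reach.zero 5) (by norm_num)
              have hd : Reach Z v w 7 d d := (hc.mono (by norm_num)).sup hu (by norm_num)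
              have h1d : Reach Z v w 8 1 d :=
                reach_one_d hd (hxy.mono (by norm_num)) hne (by norm_num)
              have hfin : Reach Z v w 9 (lat ⊤) (lat ⊥) :=
                h1d.mul (hc.mono (by norm_num)) (by norm_num)
              exact ⟨_, _, hfin, hann, lat_le_lat.2 bot_le⟩
          · exact absurd hann (fun h => h)
          · exact absurd hann (fun h => h)
          · exact absurd hann (fun h => h)
        · exact ⟨_, _, hsq, hann, lat_le_lat.2 bot_le⟩
        · exact ⟨_, _, hsq, le_one_of _, lat_le_lat.2 bot_le⟩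
        · exact ⟨_, _, hsq, le_one_of _, lat_le_lat.2 bot_le⟩
      · cases h2
      · cases h2
      · cases h2
    · refine ⟨_, _, hnn.mono (by norm_num), hann, ?_⟩
      have h1 := htL rfl
      rcases t with _ | t | _ | _ | _
      · trivial
      · cases h1
      · trivial
      · cases h1
      · cases h1
    · exact absurd rfl hbd
    · exact absurd rfl hb

end Alg


/-! ### Interpolation -/

/-- Finite conjunction and disjunction. -/
def bigConj (l : List Fm) : Fm := l.foldr Fm.conj Fm.e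

def bigDisj (l : List Fm) : Fm := l.foldr Fm.disj Fm.f

section Big

variable {A : Type*} [FLew A]

theorem eval_bigConj_le (v : ℕ → A) {l : List Fm} {c : Fm} (h : c ∈ l) :
    eval v (bigConj l) ≤ eval v c := by
  induction l with
  | nil => cases h
  | cons a l ih =>
    rcases List.mem_cons.1 h with rfl | h
    · exact inf_le_left
    · exact inf_le_right.trans (ih h)

theorem le_eval_bigConj (v : ℕ → A) {l : List Fm} {x : A} (h : ∀ c ∈ l, x ≤ eval v c) :
    x ≤ eval v (bigConj l) := by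
  induction l with
  | nil => exact le_one_of x
  | cons a l ih =>
    exact le_inf (h a List.mem_cons_self) (ih (fun c hc => h c (List.mem_cons_of_mem _ hc)))

theorem le_eval_bigDisj (v : ℕ → A) {l : List Fm} {c : Fm} (h : c ∈ l) :
    eval v c ≤ eval v (bigDisj l) := by
  induction l with
  | nil => cases h
  | cons a l ih =>
    rcases List.mem_cons.1 h with rfl | h
    · exact le_sup_left
    · exact (ih h).trans le_sup_right

theorem eval_bigDisj_le (v : ℕ → A) {l : List Fm} {x : A} (h : ∀ c ∈ l, eval v c ≤ x) :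
    eval v (bigDisj l) ≤ x := by
  induction l with
  | nil => exact bot_le
  | cons a l ih =>
    exact sup_le (h a List.mem_cons_self) (ih (fun c hc => h c (List.mem_cons_of_mem _ hc)))

end Big

theorem vars_bigConj {l : List Fm} {S : Set ℕ} (h : ∀ c ∈ l, c.vars ⊆ S) :
    (bigConj l).vars ⊆ S := by
  induction l with
  | nil => exact Set.empty_subset _
  | cons a l ih =>
    exact Set.union_subset (h a List.mem_cons_self)
      (ih (fun c hc => h c (List.mem_cons_of_mem _ hc)))

theorem vars_bigDisj {l : List Fm} {S : Set ℕ} (h : ∀ c ∈ l, c.vars ⊆ S) :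
    (bigDisj l).vars ⊆ S := by
  induction l with
  | nil => exact Set.empty_subset _
  | cons a l ih =>
    exact Set.union_subset (h a List.mem_cons_self)
      (ih (fun c hc => h c (List.mem_cons_of_mem _ hc)))

theorem Fm.vars_finite (a : Fm) : a.vars.Finite := by
  induction a with
  | var n => exact Set.finite_singleton n
  | e => exact Set.finite_empty
  | f => exact Set.finite_empty
  | conj a b iha ihb => exact iha.union ihb
  | disj a b iha ihb => exact iha.union ihb
  | fus a b iha ihb => exact iha.union ihb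
  | imp a b iha ihb => exact iha.union ihb

theorem hasCIP_valid (k : ℕ) : HasCIP (Valid (Alg (HS k))) := by
  classical
  intro a b hab
  have hab' : ∀ v : ℕ → Alg (HS k), eval v a ≤ eval v b := fun v => res_eq_one.1 (hab v)
  have hfin : (a.vars ∩ b.vars).Finite := a.vars_finite.subset Set.inter_subset_left
  let Z : Finset ℕ := hfin.toFinset
  have hZ : ∀ n, n ∈ Z ↔ n ∈ a.vars ∧ n ∈ b.vars := fun n => by simp [Z]
  have hkey : ∀ v w : ℕ → Alg (HS k), ∃ c ∈ Delta Z 9, eval v a ≤ eval v c ∧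
      eval w c ≤ eval w b := by
    intro v w
    obtain ⟨x, y, ⟨c, hc, rfl, rfl⟩, h1, h2⟩ := Alg.key Z v w (eval v a) (eval w b) (by
      intro f g hf hg hfg
      have h1 : eval (fun n => if n ∈ a.vars then f (v n) else g (w n)) a = f (eval v a) := by
        rw [← hf.eval]
        exact eval_congr (fun n hn => by simp [hn])
      have h2 : eval (fun n => if n ∈ a.vars then f (v n) else g (w n)) b = g (eval w b) := by
        rw [← hg.eval]
        refine eval_congr (fun n hn => ?_)
        by_cases hna : n ∈ a.vars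
        · simp only [hna, if_true]
          exact hfg n ((hZ n).2 ⟨hna, hn⟩)
        · simp only [hna, if_false]
      rw [← h1, ← h2]
      exact hab' _)
    exact ⟨c, hc, h1, h2⟩
  let D : Finset Fm := Delta Z 9
  let up : (ℕ → Alg (HS k)) → Finset Fm := fun v => D.filter (fun c => eval v a ≤ eval v c)
  let C : Fm := bigDisj
    ((D.powerset.filter (fun S => ∃ v, S = up v)).toList.map (fun S => bigConj S.toList))
  have hvars : C.vars ⊆ a.vars ∩ b.vars := by
    refine vars_bigDisj (fun c hc => ?_)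
    obtain ⟨S, hS, rfl⟩ := List.mem_map.1 hc
    have hS' := (Finset.mem_filter.1 (Finset.mem_toList.1 hS)).1
    refine vars_bigConj (fun c hc => ?_)
    have hcD : c ∈ Delta Z 9 := Finset.mem_powerset.1 hS' (Finset.mem_toList.1 hc)
    intro n hn
    exact (hZ n).1 (vars_of_mem_Delta hcD hn)
  refine ⟨C, ?_, ?_, hvars⟩
  · intro v
    refine res_eq_one.2 ?_
    have hmem : bigConj (up v).toList ∈
        (D.powerset.filter (fun S => ∃ v, S = up v)).toList.map (fun S => bigConj S.toList) := by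
      refine List.mem_map.2 ⟨up v, Finset.mem_toList.2 (Finset.mem_filter.2 ⟨?_, v, rfl⟩), rfl⟩
      exact Finset.mem_powerset.2 (Finset.filter_subset _ _)
    refine le_trans ?_ (le_eval_bigDisj v hmem)
    refine le_eval_bigConj v (fun c hc => ?_)
    exact (Finset.mem_filter.1 (Finset.mem_toList.1 hc)).2
  · intro w
    refine res_eq_one.2 ?_
    refine eval_bigDisj_le w (fun c hc => ?_)
    obtain ⟨S, hS, rfl⟩ := List.mem_map.1 hc
    obtain ⟨-, v, rfl⟩ := Finset.mem_filter.1 (Finset.mem_toList.1 hS)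
    obtain ⟨c, hcD, h1, h2⟩ := hkey v w
    exact (eval_bigConj_le w (Finset.mem_toList.2 (Finset.mem_filter.2 ⟨hcD, h1⟩))).trans h2

/-! ### The logics are pairwise different -/

/-- Among `k + 2` elements two are comparable. -/
noncomputable def width (k : ℕ) : Fm :=
  bigDisj ((((Finset.range (k + 2) ×ˢ Finset.range (k + 2)).filter
    (fun p => p.1 ≠ p.2)).toList).map (fun p => Fm.imp (Fm.var p.1) (Fm.var p.2)))

/-- Two elements with the same label are comparable. -/
def label {k : ℕ} : Alg (HS (k + 1)) → Option (Fin (k + 1))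
  | .lat (.pt i _) => some i
  | .u => none
  | _ => some 0

theorem comparable_of_label {k : ℕ} {x y : Alg (HS (k + 1))} (h : label x = label y) :
    x ≤ y ∨ y ≤ x := by
  rcases x with _ | (_ | ⟨i, q⟩ | _) | _ | _ | _ <;>
  rcases y with _ | (_ | ⟨j, r⟩ | _) | _ | _ | _ <;>
  first
  | exact Or.inl trivial
  | exact Or.inr trivial
  | (cases h; done)
  | (have h' : i = j := Option.some.inj h
     subst h'
     rcases le_total q r with h1 | h1
     · exact Or.inl ⟨rfl, h1⟩
     · exact Or.inr ⟨rfl, h1⟩)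

theorem width_mem (k : ℕ) : width (k + 1) ∈ Valid (Alg (HS (k + 1))) := by
  classical
  intro v
  obtain ⟨i, hi, j, hj, hij, h⟩ := Finset.exists_ne_map_eq_of_card_lt_of_maps_to
    (s := Finset.range (k + 1 + 2)) (t := (Finset.univ : Finset (Option (Fin (k + 1)))))
    (by simp) (f := fun n => label (v n)) (fun _ _ => Finset.mem_univ _)
  rcases comparable_of_label h with h | h
  · refine le_antisymm (le_one_of _) ?_
    have hmem : Fm.imp (Fm.var i) (Fm.var j) ∈
        (((Finset.range (k + 1 + 2) ×ˢ Finset.range (k + 1 + 2)).filter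
          (fun p => p.1 ≠ p.2)).toList).map (fun p => Fm.imp (Fm.var p.1) (Fm.var p.2)) :=
      List.mem_map.2 ⟨(i, j), Finset.mem_toList.2 (Finset.mem_filter.2
        ⟨Finset.mem_product.2 ⟨hi, hj⟩, hij⟩), rfl⟩
    exact (one_le_res.2 h).trans (le_eval_bigDisj v hmem)
  · refine le_antisymm (le_one_of _) ?_
    have hmem : Fm.imp (Fm.var j) (Fm.var i) ∈
        (((Finset.range (k + 1 + 2) ×ˢ Finset.range (k + 1 + 2)).filter
          (fun p => p.1 ≠ p.2)).toList).map (fun p => Fm.imp (Fm.var p.1) (Fm.var p.2)) :=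
      List.mem_map.2 ⟨(j, i), Finset.mem_toList.2 (Finset.mem_filter.2
        ⟨Finset.mem_product.2 ⟨hj, hi⟩, hij.symm⟩), rfl⟩
    exact (one_le_res.2 h).trans (le_eval_bigDisj v hmem)

theorem width_notMem {k m : ℕ} (h : k < m) : width k ∉ Valid (Alg (HS m)) := by
  classical
  intro hcon
  let v : ℕ → Alg (HS m) := fun n =>
    if hn : n < m then Alg.lat (HS.pt ⟨n, hn⟩ 0) else Alg.u
  have hv : ∀ i j, i < k + 2 → j < k + 2 → i ≠ j → ¬ v i ≤ v j := by
    intro i j hi hj hij hle
    by_cases hi' : i < m <;> by_cases hj' : j < m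
    · simp only [v, hi', hj', dif_pos] at hle
      have h1 : (⟨i, hi'⟩ : Fin m) = ⟨j, hj'⟩ := hle.1
      exact hij (Fin.mk.inj h1)
    · simp only [v, hi', hj', dif_pos, dif_neg, not_false_eq_true] at hle
      exact hle
    · simp only [v, hi', hj', dif_pos, dif_neg, not_false_eq_true] at hle
      exact hle
    · omega
  have hle : eval v (width k) ≤ Alg.d := by
    refine eval_bigDisj_le v (fun c hc => ?_)
    obtain ⟨p, hp, rfl⟩ := List.mem_map.1 hc
    obtain ⟨hp1, hp2⟩ := Finset.mem_filter.1 (Finset.mem_toList.1 hp)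
    obtain ⟨hp3, hp4⟩ := Finset.mem_product.1 hp1
    refine Alg.le_d_of_ne_one (fun hone => ?_)
    exact hv p.1 p.2 (Finset.mem_range.1 hp3) (Finset.mem_range.1 hp4) hp2 (res_eq_one.1 hone)
  rw [hcon v] at hle
  exact Alg.not_one_le_d hle

theorem valid_injective :
    Function.Injective (fun k : ℕ => Valid (Alg (HS (k + 1)))) := by
  intro k m hkm
  rcases lt_trichotomy k m with h | h | h
  · exfalso
    have h1 := width_mem k
    have h2 := width_notMem (k := k + 1) (m := m + 1) (by omega)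
    have hkm' : Valid (Alg (HS (k + 1))) = Valid (Alg (HS (m + 1))) := hkm
    rw [hkm'] at h1
    exact h2 h1
  · exact h
  · exfalso
    have h1 := width_mem m
    have h2 := width_notMem (k := m + 1) (m := k + 1) (by omega)
    have hkm' : Valid (Alg (HS (k + 1))) = Valid (Alg (HS (m + 1))) := hkm
    rw [← hkm'] at h1
    exact h2 h1

/-- There are infinitely many axiomatic extensions of `FL_ew` with the Craig interpolation
property. -/
theorem result : {T : Set Fm | IsAxiomaticExtension T ∧ HasCIP T}.Infinite :=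
  Set.infinite_of_injective_forall_mem valid_injective
    (fun k => ⟨isAxiomaticExtension_valid _, hasCIP_valid (k + 1)⟩)

end Pool.Agent.Results.MP_dd1479_lc.InfinitelyManyCIP
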